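import Mathlib

/-!
# Iterate differences of nonexpansive maps on the real line (MP_0aa9c3_an, Q1)

Let `T : ℝ → ℝ` be nonexpansive and let `v` be the point of smallest absolute value of the closure
of the range of `Id - T`. If `v ≠ 0`, then `T^n x - T^n y` converges for all `x`, `y`.

Proof. The function `g = Id - T` is monotone. If `v > 0`, then `g ≥ v`, so the orbits tend to `-∞`
and, by monotonicity, `g` tends to `v` along them. So consecutive terms of
`d_n = T^n x - T^n y` get close to each other, while `|d_n|` decreases to a limit. Hence the sign of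
`d_n` is eventually constant unless `d_n → 0`. The case `v < 0` is symmetric.
-/

set_option autoImplicit false

open Filter Topology Set

namespace Pool.Agent.Results.MP_0aa9c3_an.DifferencesConverge

/-- A real sequence whose absolute values are antitone and whose increments tend to `0`
converges. -/
theorem tendsto_of_abs_antitone {d : ℕ → ℝ} (ha : Antitone fun n => |d n|)
    (hd : Tendsto (fun n => d (n + 1) - d n) atTop (𝓝 0)) : ∃ L, Tendsto d atTop (𝓝 L) := by
  obtain ⟨L, hL⟩ : ∃ L, Tendsto (fun n => |d n|) atTop (𝓝 L) :=
    ⟨_, tendsto_atTop_ciInf ha ⟨0, by rintro _ ⟨n, rfl⟩; exact abs_nonneg _⟩⟩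
  have hL0 : 0 ≤ L := ge_of_tendsto' hL fun n => abs_nonneg _
  have hge : ∀ n, L ≤ |d n| := fun n => ha.le_of_tendsto hL n
  rcases hL0.eq_or_lt with h0 | h0
  · rw [← h0] at hL
    exact ⟨0, (tendsto_zero_iff_abs_tendsto_zero _).2 hL⟩
  · -- eventually consecutive terms are at distance less than `L`
    have hev : ∀ᶠ n in atTop, |d (n + 1) - d n| < L := by
      have := (tendsto_zero_iff_abs_tendsto_zero _).1 hd
      exact this.eventually (gt_mem_nhds h0)
    obtain ⟨N, hN⟩ := eventually_atTop.1 hev
    rcases le_or_gt 0 (d N) with hs | hs
    · have hpos : ∀ n, N ≤ n → 0 ≤ d n := by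
        intro n hn
        induction n, hn using Nat.le_induction with
        | base => exact hs
        | succ n hn ih =>
          by_contra hc
          push Not at hc
          have h1 := hge n
          have h2 := hge (n + 1)
          rw [abs_of_nonneg ih] at h1
          rw [abs_of_neg hc] at h2
          have h3 := hN n hn
          rw [abs_lt] at h3
          linarith [h3.1]
      refine ⟨L, hL.congr' ?_⟩
      filter_upwards [eventually_ge_atTop N] with n hn
      exact abs_of_nonneg (hpos n hn)
    · have hneg : ∀ n, N ≤ n → d n < 0 := by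
        intro n hn
        induction n, hn using Nat.le_induction with
        | base => exact hs
        | succ n hn ih =>
          by_contra hc
          push Not at hc
          have h1 := hge n
          have h2 := hge (n + 1)
          rw [abs_of_neg ih] at h1
          rw [abs_of_nonneg hc] at h2
          have h3 := hN n hn
          rw [abs_lt] at h3
          linarith [h3.2]
      refine ⟨-L, ?_⟩
      have := hL.neg
      refine this.congr' ?_
      filter_upwards [eventually_ge_atTop N] with n hn
      rw [abs_of_neg (hneg n hn), neg_neg]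

/-- The case of a positive displacement. -/
theorem main_pos (T : ℝ → ℝ) (hT : ∀ x y, |T x - T y| ≤ |x - y|) (v : ℝ)
    (hv : v ∈ closure (range fun x => x - T x))
    (hmin : ∀ w ∈ closure (range fun x => x - T x), |v| ≤ |w|) (hv0 : 0 < v) (x y : ℝ) :
    ∃ L, Tendsto (fun n => T^[n] x - T^[n] y) atTop (𝓝 L) := by
  have hcont : Continuous T := by
    have : LipschitzWith 1 T := by
      refine LipschitzWith.of_dist_le_mul fun a b => ?_
      simpa [Real.dist_eq] using hT a b
    exact this.continuous
  set g : ℝ → ℝ := fun x => x - T x with hg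
  have hgc : Continuous g := continuous_id.sub hcont
  have hgm : Monotone g := by
    intro a b hab
    have := hT b a
    rw [abs_of_nonneg (sub_nonneg.2 hab), abs_le] at this
    simp only [hg]
    linarith [this.2]
  have hge : ∀ a, v ≤ g a := by
    intro a
    by_contra hc
    push Not at hc
    rcases le_or_gt (g a) 0 with h | h
    · -- then `0` is a value of `g` in the closure of the range
      obtain ⟨b, hb⟩ : ∃ b, 0 < g b := by
        obtain ⟨b, hb1, ⟨c, rfl⟩⟩ := mem_closure_iff.1 hv (Ioi 0) isOpen_Ioi hv0
        exact ⟨c, hb1⟩
      obtain ⟨c, hc'⟩ := mem_range_of_exists_le_of_exists_ge hgc ⟨a, h⟩ ⟨b, hb.le⟩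
      have := hmin 0 (subset_closure ⟨c, hc'⟩)
      rw [abs_zero, abs_of_pos hv0] at this
      linarith
    · have := hmin (g a) (subset_closure ⟨a, rfl⟩)
      rw [abs_of_pos hv0, abs_of_pos h] at this
      linarith
  have hiter : ∀ (a : ℝ) (n : ℕ), T^[n] a ≤ a - n * v := by
    intro a n
    induction n with
    | zero => simp
    | succ n ih =>
      rw [Function.iterate_succ_apply']
      have := hge (T^[n] a)
      simp only [hg] at this
      push_cast
      linarith
  have hlim : ∀ a : ℝ, Tendsto (fun n => g (T^[n] a)) atTop (𝓝 v) := by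
    intro a
    rw [tendsto_order]
    refine ⟨fun b hb => Eventually.of_forall fun n => hb.trans_le (hge _), fun b hb => ?_⟩
    obtain ⟨_, hz1, ⟨z, rfl⟩⟩ := mem_closure_iff.1 hv (Iio b) isOpen_Iio hb
    have hev : ∀ᶠ n : ℕ in atTop, a - z ≤ n * v := by
      have : Tendsto (fun n : ℕ => (n : ℝ) * v) atTop atTop :=
        tendsto_natCast_atTop_atTop.atTop_mul_const hv0
      exact this.eventually_ge_atTop _
    filter_upwards [hev] with n hn
    have h1 : T^[n] a ≤ z := by linarith [hiter a n]
    exact (hgm h1).trans_lt hz1
  refine tendsto_of_abs_antitone ?_ ?_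
  · refine antitone_nat_of_succ_le fun n => ?_
    rw [Function.iterate_succ_apply', Function.iterate_succ_apply']
    exact hT _ _
  · have h := (hlim y).sub (hlim x)
    rw [sub_self] at h
    refine h.congr fun n => ?_
    rw [Function.iterate_succ_apply', Function.iterate_succ_apply']
    simp only [hg]
    ring

/-- **Q1 is true.** Let `T : ℝ → ℝ` be nonexpansive and let `v` be the metric projection of `0` onto
the closure of the range of `Id - T` (its point of smallest absolute value). If `v ≠ 0`, then
`T^n x - T^n y` converges for all real `x`, `y` (whether or not `v + T` has a fixed point). -/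
theorem result (T : ℝ → ℝ) (hT : ∀ x y, |T x - T y| ≤ |x - y|) (v : ℝ)
    (hv : v ∈ closure (range fun x => x - T x))
    (hmin : ∀ w ∈ closure (range fun x => x - T x), |v| ≤ |w|) (hv0 : v ≠ 0) (x y : ℝ) :
    ∃ L, Tendsto (fun n => T^[n] x - T^[n] y) atTop (𝓝 L) := by
  rcases lt_or_gt_of_ne hv0 with h | h
  · -- conjugate by `x ↦ -x`
    set S : ℝ → ℝ := fun x => -T (-x) with hS
    have hrange : (range fun x => x - S x) = (fun w => -w) '' (range fun x => x - T x) := by
      ext w
      constructor
      · rintro ⟨a, rfl⟩
        exact ⟨-a - T (-a), ⟨-a, rfl⟩, by simp only [hS]; ring⟩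
      · rintro ⟨_, ⟨a, rfl⟩, rfl⟩
        exact ⟨-a, by simp only [hS, neg_neg]; ring⟩
    have hcl : closure (range fun x => x - S x) = (fun w => -w) '' closure (range fun x => x - T x) := by
      rw [hrange]
      exact ((Homeomorph.neg ℝ).image_closure _).symm
    have hiter : ∀ (n : ℕ) (a : ℝ), S^[n] (-a) = -(T^[n] a) := by
      intro n
      induction n with
      | zero => simp
      | succ n ih =>
        intro a
        rw [Function.iterate_succ_apply', Function.iterate_succ_apply', ih]
        simp [hS]
    obtain ⟨L, hL⟩ := main_pos S (fun a b => by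
        simp only [hS]
        have := hT (-a) (-b)
        rw [show -T (-a) - -T (-b) = -(T (-a) - T (-b)) by ring, abs_neg]
        rwa [show -a - -b = -(a - b) by ring, abs_neg] at this) (-v)
      (by rw [hcl]; exact ⟨v, hv, rfl⟩)
      (by
        rw [hcl]
        rintro _ ⟨w, hw, rfl⟩
        simpa using hmin w hw) (by linarith) (-x) (-y)
    refine ⟨-L, ?_⟩
    refine hL.neg.congr fun n => ?_
    rw [hiter, hiter]
    ring
  · exact main_pos T hT v hv hmin h x y

end Pool.Agent.Results.MP_0aa9c3_an.DifferencesConverge
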